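import Pool.Agent.Helper92.UQ.Goals

/-!
# An invariant polynomial vanishes on the formal orbit
-/

set_option autoImplicit false

open MvPolynomial

namespace Pool.Agent.Helper31.UQ.ORB

open Pool.Agent.Helper92.UQ

noncomputable section

section sub

variable {K : Type} [Field K] {σ : Type} {F : Type} [Field F] [Algebra K F]

/-- The subalgebra generated by the coordinates, the square roots and the slopes. -/
def SS (x ψ r : σ → F) : Subalgebra K F :=
  Algebra.adjoin K (Set.range x ∪ Set.range ψ ∪ Set.range r)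

variable (x ψ r : σ → F)

theorem mx (k : σ) : x k ∈ SS (K := K) x ψ r :=
  Algebra.subset_adjoin (Or.inl (Or.inl ⟨k, rfl⟩))

theorem mpsi (k : σ) : ψ k ∈ SS (K := K) x ψ r :=
  Algebra.subset_adjoin (Or.inl (Or.inr ⟨k, rfl⟩))

theorem mr (k : σ) : r k ∈ SS (K := K) x ψ r :=
  Algebra.subset_adjoin (Or.inr ⟨k, rfl⟩)

theorem int_sq {A S : Type} [CommRing A] [CommRing S] (f : A →+* S) {y : S} {a : A}
    (h : y ^ 2 = f a) : f.IsIntegralElem y := by
  refine ⟨Polynomial.X ^ 2 - Polynomial.C a, Polynomial.monic_X_pow_sub_C a two_ne_zero, ?_⟩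
  rw [Polynomial.eval₂_sub, Polynomial.eval₂_pow, Polynomial.eval₂_X, Polynomial.eval₂_C, h,
    sub_self]

end sub

/-- The homomorphism to the field of the point. -/
theorem theta (hL : LYO) {K : Type} [Field K] {σ : Type} [Fintype σ]
    (B : σ → Polynomial K) (n : σ → K) (h : MvPolynomial σ K) (i1 : σ) (hn : n i1 ≠ 0)
    {F : Type} [Field F] [Algebra K F] (x ψ r : σ → F) (hG : Gen B n h i1 x ψ r)
    (Ω : Type) [Field Ω] [Algebra K Ω] [IsAlgClosed Ω] (P : σ → Ω) (hP : aeval P h = 0) :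
    ∃ θ : SS (K := K) x ψ r →ₐ[K] Ω, ∀ k, θ ⟨x k, mx x ψ r k⟩ = P k := by
  let φ0 : MvPolynomial σ K →ₐ[K] SS (K := K) x ψ r := aeval fun k => ⟨x k, mx x ψ r k⟩
  have hv : ∀ p : MvPolynomial σ K, ((φ0 p : SS (K := K) x ψ r) : F) = aeval x p := by
    intro p
    have h1 : (SS (K := K) x ψ r).val.comp φ0 = aeval x := by
      apply MvPolynomial.algHom_ext
      intro k
      simp [φ0]
    exact AlgHom.congr_fun h1 p
  have hint : ∀ y (hy : y ∈ SS (K := K) x ψ r), φ0.toRingHom.IsIntegralElem ⟨y, hy⟩ := by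
    intro y hy
    refine Algebra.adjoin_induction
      (p := fun y hy => φ0.toRingHom.IsIntegralElem (⟨y, hy⟩ : SS (K := K) x ψ r))
      ?_ ?_ ?_ ?_ hy
    · rintro y ((⟨k, rfl⟩ | ⟨k, rfl⟩) | ⟨k, rfl⟩)
      · have h1 : (⟨x k, mx x ψ r k⟩ : SS (K := K) x ψ r) = φ0.toRingHom (X k) := by
          simp [φ0]
        rw [h1]
        exact RingHom.isIntegralElem_map _
      · refine int_sq (a := Polynomial.aeval (X k) (B k)) φ0.toRingHom (Subtype.ext ?_)
        show ψ k ^ 2 = ((φ0 (Polynomial.aeval (X k) (B k)) : SS (K := K) x ψ r) : F)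
        rw [hv, hG.sq, ← Polynomial.aeval_algHom_apply, aeval_X]
      · refine int_sq (a := C (n k / n i1)) φ0.toRingHom (Subtype.ext ?_)
        show r k ^ 2 = ((φ0 (C (n k / n i1)) : SS (K := K) x ψ r) : F)
        have h2 : algebraMap K F (n i1) ≠ 0 := by
          rw [Ne, map_eq_zero]
          exact hn
        rw [hv, aeval_C, map_div₀, ← hG.slo k, mul_div_cancel_left₀ _ h2]
    · intro c
      have h1 : (⟨algebraMap K F c, (SS (K := K) x ψ r).algebraMap_mem c⟩ : SS (K := K) x ψ r) =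
          φ0.toRingHom (C c) := by
        refine Subtype.ext ?_
        show algebraMap K F c = ((φ0 (C c) : SS (K := K) x ψ r) : F)
        rw [hv, aeval_C]
      have h2 : φ0.toRingHom.IsIntegralElem (φ0.toRingHom (C c)) :=
        RingHom.isIntegralElem_map _
      rw [← h1] at h2
      exact h2
    · intro y z hy hz h1 h2
      exact RingHom.IsIntegralElem.add _ h1 h2
    · intro y z hy hz h1 h2
      exact RingHom.IsIntegralElem.mul _ h1 h2
  let _ : Algebra (MvPolynomial σ K) (SS (K := K) x ψ r) := φ0.toRingHom.toAlgebra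
  have : Algebra.IsIntegral (MvPolynomial σ K) (SS (K := K) x ψ r) :=
    ⟨fun y => hint y.1 y.2⟩
  obtain ⟨θ, hθ⟩ := hL (MvPolynomial σ K) (SS (K := K) x ψ r) Ω
    (aeval P : MvPolynomial σ K →ₐ[K] Ω).toRingHom (by
      intro p hp
      rw [RingHom.mem_ker] at hp ⊢
      have h1 : φ0 p = 0 := hp
      have h2 : aeval x p = 0 := by rw [← hv, h1]; rfl
      obtain ⟨q, rfl⟩ := (hG.ker p).1 h2
      show aeval P (h * q) = 0
      rw [map_mul, hP, zero_mul])
  have hθ' : ∀ p : MvPolynomial σ K, θ (φ0 p) = aeval P p := hθ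
  refine ⟨{ θ with commutes' := fun c => ?_ }, fun k => ?_⟩
  · have h1 := hθ' (C c)
    rw [aeval_C, aeval_C] at h1
    exact h1
  · have h1 := hθ' (X k)
    rw [aeval_X, aeval_X] at h1
    exact h1

/-- The Taylor homomorphism. -/
theorem taylor (hT : TAYD) {K : Type} [Field K] [CharZero K] {σ : Type} [Fintype σ]
    {F : Type} [Field F] [Algebra K F] (x ψ r : σ → F)
    (Ω : Type) [Field Ω] [Algebra K Ω] (θ : SS (K := K) x ψ r →ₐ[K] Ω) (D : Derivation K F F)
    (hx : ∀ k, D (x k) ∈ SS (K := K) x ψ r) (hpsi : ∀ k, D (ψ k) ∈ SS (K := K) x ψ r)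
    (hr : ∀ k, D (r k) ∈ SS (K := K) x ψ r) :
    ∃ (hD : ∀ y ∈ SS (K := K) x ψ r, D y ∈ SS (K := K) x ψ r)
      (E : SS (K := K) x ψ r →ₐ[K] PowerSeries Ω), ∀ y (hy : y ∈ SS (K := K) x ψ r),
      PowerSeries.constantCoeff (E ⟨y, hy⟩) = θ ⟨y, hy⟩ ∧
        PowerSeries.derivative Ω (E ⟨y, hy⟩) = E ⟨D y, hD y hy⟩ := by
  have : CharZero Ω := charZero_of_injective_algebraMap (algebraMap K Ω).injective
  have hD : ∀ y ∈ SS (K := K) x ψ r, D y ∈ SS (K := K) x ψ r := by
    intro y hy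
    refine Algebra.adjoin_induction (p := fun y _ => D y ∈ SS (K := K) x ψ r) ?_ ?_ ?_ ?_ hy
    · rintro y ((⟨k, rfl⟩ | ⟨k, rfl⟩) | ⟨k, rfl⟩)
      exacts [hx k, hpsi k, hr k]
    · intro c
      rw [Derivation.map_algebraMap]
      exact zero_mem _
    · intro y z _ _ h1 h2
      rw [map_add]
      exact add_mem h1 h2
    · intro y z hy hz h1 h2
      rw [Derivation.leibniz, smul_eq_mul, smul_eq_mul]
      exact add_mem (mul_mem hy h2) (mul_mem hz h1)
  let D' : Derivation ℤ (SS (K := K) x ψ r) (SS (K := K) x ψ r) :=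
    Derivation.mk' (({ toFun := fun y => ⟨D y.1, hD y.1 y.2⟩
                       map_zero' := Subtype.ext (map_zero D)
                       map_add' := fun y z => Subtype.ext (map_add D y.1 z.1) } :
        SS (K := K) x ψ r →+ SS (K := K) x ψ r).toIntLinearMap) (fun y z => Subtype.ext (by
          show D (y.1 * z.1) = y.1 * D z.1 + z.1 * D y.1
          rw [Derivation.leibniz, smul_eq_mul, smul_eq_mul]))
  obtain ⟨E, hE⟩ := hT (SS (K := K) x ψ r) Ω D' θ.toRingHom
  have hc : ∀ c : K, E (algebraMap K _ c) = algebraMap K (PowerSeries Ω) c := by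
    intro c
    obtain ⟨h1, h2⟩ := hE (algebraMap K _ c)
    have h3 : D' (algebraMap K _ c) = 0 := Subtype.ext (by
      show D (algebraMap K F c) = 0
      rw [Derivation.map_algebraMap])
    rw [h3, map_zero] at h2
    refine PowerSeries.derivative.ext ?_ ?_
    · rw [h2]
      rw [IsScalarTower.algebraMap_apply K Ω (PowerSeries Ω)]
      show 0 = PowerSeries.derivative Ω (PowerSeries.C _)
      simp
    · rw [h1, IsScalarTower.algebraMap_apply K Ω (PowerSeries Ω)]
      show θ (algebraMap K _ c) = PowerSeries.constantCoeff (PowerSeries.C _)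
      simp
  exact ⟨hD, { E with commutes' := hc }, fun y hy => hE ⟨y, hy⟩⟩

theorem t (hGen : GENP) (hDer : DERG) (hL : LYO) (hT : TAYD) (hO : ODE) :
    Pool.Agent.Helper92.UQ.ORB := by
  intro K _ _ σ _ _ B hB n i1 Ω _ _ _ P s X Y hn hs hSol h hInv hP
  have : CharZero Ω := charZero_of_injective_algebraMap (algebraMap K Ω).injective
  obtain ⟨F, _, _, x, ψ, r, hG⟩ := hGen K σ B hB n h i1 hInv hn
  obtain ⟨θ, hθ⟩ := theta hL B n h i1 hn x ψ r hG Ω P hP
  -- the signs
  have hsgn : ∀ k, ∃ ε : K, ε * ε = 1 ∧ θ ⟨ψ k, mpsi x ψ r k⟩ = algebraMap K Ω ε * s k := by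
    intro k
    have h1 : θ ⟨ψ k, mpsi x ψ r k⟩ ^ 2 = s k ^ 2 := by
      rw [hs, ← hθ k, Polynomial.aeval_algHom_apply, ← map_pow]
      congr 1
      refine Subtype.ext ?_
      show ψ k ^ 2 = (SS (K := K) x ψ r).val (Polynomial.aeval _ (B k))
      rw [← Polynomial.aeval_algHom_apply]
      exact hG.sq k
    rcases sq_eq_sq_iff_eq_or_eq_neg.1 h1 with h2 | h2
    · exact ⟨1, by ring, by rw [h2, map_one, one_mul]⟩
    · exact ⟨-1, by ring, by rw [h2, map_neg, map_one, neg_mul, one_mul]⟩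
  choose ε hε1 hε2 using hsgn
  have hεΩ : ∀ k, algebraMap K Ω (ε k) * algebraMap K Ω (ε k) = 1 := fun k => by
    rw [← map_mul, hε1, map_one]
  have hr1 : θ ⟨r i1, mr x ψ r i1⟩ = 1 := by
    rw [← map_one θ]
    congr 1
    exact Subtype.ext hG.one
  refine ⟨fun k => algebraMap K Ω (ε i1) * algebraMap K Ω (ε k) * θ ⟨r k, mr x ψ r k⟩, ?_, ?_, ?_⟩
  · show algebraMap K Ω (ε i1) * algebraMap K Ω (ε i1) * θ ⟨r i1, mr x ψ r i1⟩ = 1
    rw [hεΩ, hr1, one_mul]
  · intro k
    have h1 : algebraMap K Ω (n i1) * θ ⟨r k, mr x ψ r k⟩ ^ 2 = algebraMap K Ω (n k) := by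
      rw [← θ.commutes, ← θ.commutes, ← map_pow, ← map_mul]
      congr 1
      refine Subtype.ext ?_
      exact hG.slo k
    rw [← h1]
    linear_combination (algebraMap K Ω (n i1) * θ ⟨r k, mr x ψ r k⟩ ^ 2) *
      (algebraMap K Ω (ε k) * algebraMap K Ω (ε k) * hεΩ i1 + hεΩ k)
  intro a
  obtain ⟨D, al, hal1, hal2, hDx, hDr, hDpsi⟩ :=
    hDer K σ B n h i1 F x ψ r hn hG fun k => ε k * a k
  have hal : ∀ k, al k ∈ SS (K := K) x ψ r := by
    intro k
    by_cases hk : k = i1
    · subst hk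
      rw [hal2]
      exact neg_mem (sum_mem fun j _ => mul_mem ((SS (K := K) x ψ r).algebraMap_mem _)
        (mr x ψ r j))
    · rw [hal1 k hk]
      exact (SS (K := K) x ψ r).algebraMap_mem _
  have hDal : ∀ k, D (al k) = 0 := by
    intro k
    by_cases hk : k = i1
    · subst hk
      rw [hal2, map_neg, map_sum, neg_eq_zero]
      refine Finset.sum_eq_zero fun j _ => ?_
      rw [Derivation.leibniz, hDr, Derivation.map_algebraMap, smul_zero, smul_zero, add_zero]
    · rw [hal1 k hk, Derivation.map_algebraMap]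
  have hval : ∀ (y : SS (K := K) x ψ r) (q : Polynomial K),
      Polynomial.aeval (y : F) q = ((Polynomial.aeval y q : SS (K := K) x ψ r) : F) := fun y q =>
    Polynomial.aeval_algHom_apply (SS (K := K) x ψ r).val y q
  have h2F : (2 : F) ≠ 0 := by
    have h1 : algebraMap K F 2 ≠ 0 := by
      rw [Ne, map_eq_zero]
      exact two_ne_zero
    rwa [map_ofNat] at h1
  have hDp : ∀ k, D (ψ k) = algebraMap K F (1 / 2) * (al k *
      Polynomial.aeval (x k) (Polynomial.derivative (B k))) := by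
    intro k
    rw [← hDpsi k, map_div₀, map_one, map_ofNat]
    field_simp
  obtain ⟨hD, E, hE⟩ := taylor hT x ψ r Ω θ D
    (fun k => by
      rw [hDx]
      exact mul_mem (hal k) (mpsi x ψ r k))
    (fun k => by
      rw [hDp]
      refine mul_mem ((SS (K := K) x ψ r).algebraMap_mem _) (mul_mem (hal k) ?_)
      rw [hval ⟨x k, mx x ψ r k⟩]
      exact Subtype.property _)
    (fun k => by
      rw [hDr]
      exact zero_mem _)
  have hEal : ∀ k, E ⟨al k, hal k⟩ = PowerSeries.C (θ ⟨al k, hal k⟩) := by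
    intro k
    obtain ⟨h1, h2⟩ := hE (al k) (hal k)
    refine PowerSeries.derivative.ext ?_ ?_
    · rw [h2]
      have h3 : (⟨D (al k), hD _ (hal k)⟩ : SS (K := K) x ψ r) = 0 := Subtype.ext (hDal k)
      rw [h3, map_zero]
      simp
    · rw [h1]
      simp
  have hf : ∀ k, E ⟨x k, mx x ψ r k⟩ =
      PowerSeries.rescale (algebraMap K Ω (ε k) * θ ⟨al k, hal k⟩) (X k) := by
    intro k
    obtain ⟨h1, h2⟩ := hE (x k) (mx x ψ r k)
    obtain ⟨h3, h4⟩ := hE (ψ k) (mpsi x ψ r k)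
    have h5 : E ⟨D (x k), hD _ (mx x ψ r k)⟩ =
        PowerSeries.C (θ ⟨al k, hal k⟩) * E ⟨ψ k, mpsi x ψ r k⟩ := by
      rw [← hEal, ← map_mul]
      congr 1
      exact Subtype.ext (hDx k)
    have h6 : 2 * E ⟨D (ψ k), hD _ (mpsi x ψ r k)⟩ = PowerSeries.C (θ ⟨al k, hal k⟩) *
        Polynomial.aeval (E ⟨x k, mx x ψ r k⟩) (Polynomial.derivative (B k)) := by
      rw [← hEal, Polynomial.aeval_algHom_apply, ← map_mul, ← map_ofNat E, ← map_mul]
      congr 1
      refine Subtype.ext ?_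
      show 2 * D (ψ k) = al k * ((Polynomial.aeval (⟨x k, mx x ψ r k⟩ : SS (K := K) x ψ r)
        (Polynomial.derivative (B k)) : SS (K := K) x ψ r) : F)
      rw [← hval]
      exact hDpsi k
    refine (hO Ω ((B k).map (algebraMap K Ω)) (P k) (s k)).2 (X k) (Y k) (hSol k) _ _
      (PowerSeries.C (algebraMap K Ω (ε k)) * E ⟨ψ k, mpsi x ψ r k⟩) ?_ ?_ ?_ ?_
    · rw [h1, hθ]
    · rw [map_mul, h3, PowerSeries.constantCoeff_C, hε2, ← mul_assoc, hεΩ, one_mul]
    · rw [h2, h5, map_mul]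
      have h7 : PowerSeries.C (algebraMap K Ω (ε k)) * PowerSeries.C (algebraMap K Ω (ε k)) =
          (1 : PowerSeries Ω) := by
        rw [← map_mul, hεΩ, map_one]
      linear_combination (-(PowerSeries.C (θ ⟨al k, hal k⟩) * E ⟨ψ k, mpsi x ψ r k⟩)) * h7
    · have h8 : PowerSeries.derivative Ω
          (PowerSeries.C (algebraMap K Ω (ε k)) * E ⟨ψ k, mpsi x ψ r k⟩) =
          PowerSeries.C (algebraMap K Ω (ε k)) * E ⟨D (ψ k), hD _ (mpsi x ψ r k)⟩ := by
        rw [Derivation.leibniz, h4]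
        simp
      have h9 : Polynomial.aeval (E ⟨x k, mx x ψ r k⟩)
          (Polynomial.derivative ((B k).map (algebraMap K Ω))) =
          Polynomial.aeval (E ⟨x k, mx x ψ r k⟩) (Polynomial.derivative (B k)) := by
        rw [Polynomial.derivative_map, Polynomial.aeval_map_algebraMap]
      rw [h8, h9, map_mul]
      linear_combination (PowerSeries.C (algebraMap K Ω (ε k))) * h6
  have hfin : aeval (fun k => E ⟨x k, mx x ψ r k⟩) h = 0 := by
    have h1 : aeval (fun k => (⟨x k, mx x ψ r k⟩ : SS (K := K) x ψ r)) h = 0 := by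
      refine Subtype.ext ?_
      have h2 := (hG.ker h).2 dvd_rfl
      have h3 : (SS (K := K) x ψ r).val.comp
          (aeval (fun k => (⟨x k, mx x ψ r k⟩ : SS (K := K) x ψ r))) = aeval x := by
        apply MvPolynomial.algHom_ext
        intro k
        simp
      have h4 := AlgHom.congr_fun h3 h
      rw [h2] at h4
      exact h4
    have h2 : E.comp (aeval (fun k => (⟨x k, mx x ψ r k⟩ : SS (K := K) x ψ r))) =
        aeval (fun k => E ⟨x k, mx x ψ r k⟩) := by
      apply MvPolynomial.algHom_ext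
      intro k
      simp
    rw [← AlgHom.congr_fun h2 h]
    show E (aeval _ h) = 0
    rw [h1, map_zero]
  convert hfin using 2
  congr 1
  funext k
  rw [hf]
  congr 1
  by_cases hk : k = i1
  · subst hk
    rw [if_pos rfl]
    have h1 : (⟨al k, hal k⟩ : SS (K := K) x ψ r) = - ∑ j ∈ Finset.univ.erase k,
        algebraMap K _ (ε j * a j) * ⟨r j, mr x ψ r j⟩ := by
      refine Subtype.ext ?_
      refine hal2.trans ?_
      simp
    rw [h1, map_neg, map_sum, mul_neg, Finset.mul_sum]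
    refine congrArg _ (neg_inj.2 (Finset.sum_congr rfl fun j _ => ?_))
    rw [map_mul, θ.commutes, map_mul]
    ring
  · rw [if_neg hk]
    have h1 : (⟨al k, hal k⟩ : SS (K := K) x ψ r) = algebraMap K _ (ε k * a k) :=
      Subtype.ext (hal1 k hk)
    rw [h1, θ.commutes, map_mul, ← mul_assoc, hεΩ, one_mul]

end

end Pool.Agent.Helper31.UQ.ORB
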